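import Pool.Agent.H219R3.FT8

/-!
# A torsion-free group whose square is Krylov transitive but which is not transitive

The group is the ring `RR A` of the starting library `Pool.Agent.H219R3.FT` (used there for a
homogeneous, fully transitive, non-transitive group).  Here the square of that group is shown to
be fully transitive, hence Krylov transitive.
-/

set_option autoImplicit false

namespace Pool.Agent.Results.MP_b84a00_al.SquareNotTransitive

open PowerSeries Pool.Agent.H219R3.FT

/-- `χ(x) ≤ χ(y)`: for every prime `q`, every power of `q` dividing `x` divides `y`. -/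
def CharLE {G : Type} [AddCommGroup G] (x y : G) : Prop :=
  ∀ q : ℕ, q.Prime → ∀ k : ℕ, (∃ z : G, q ^ k • z = x) → ∃ z : G, q ^ k • z = y

/-- Torsion-free abelian group. -/
def TorsionFree (G : Type) [AddCommGroup G] : Prop :=
  ∀ (n : ℕ) (x : G), n ≠ 0 → n • x = 0 → x = 0

/-- Homogeneous: all nonzero elements have the same type. -/
def Homogeneous (G : Type) [AddCommGroup G] : Prop :=
  ∀ x y : G, x ≠ 0 → y ≠ 0 → ∃ n : ℕ, n ≠ 0 ∧ CharLE x (n • y)

/-- Transitive: elements with the same characteristic are related by an automorphism. -/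
def Transitive (G : Type) [AddCommGroup G] : Prop :=
  ∀ x y : G, CharLE x y → CharLE y x → ∃ f : G ≃+ G, f x = y

/-- Krylov transitive: elements with the same characteristic are related by an endomorphism. -/
def KrylovTransitive (G : Type) [AddCommGroup G] : Prop :=
  ∀ x y : G, CharLE x y → CharLE y x → ∃ f : G →+ G, f x = y

/-- Fully transitive. -/
def FullyTransitive (G : Type) [AddCommGroup G] : Prop :=
  ∀ x y : G, CharLE x y → ∃ f : G →+ G, f x = y

variable {p : ℕ} [hp : Fact p.Prime]

/-- In `RR A` only the zero element is divisible by all the powers of `p`. -/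
theorem eq_zero_of_all (A : Subring (S p)) (a : RR A) (h : ∀ k : ℕ, (p : S p) ^ k ∣ (a : S p)) :
    a = 0 := Subtype.ext (S_eq_zero _ h)

theorem charLE_iff (A : Subring (S p)) (a b : RR A) :
    CharLE a b ↔ ∀ k : ℕ, (p : S p) ^ k ∣ (a : S p) → (p : S p) ^ k ∣ (b : S p) := by
  constructor
  · intro h k hk
    rcases (div_iff A b p hp.1 k).1 (h p hp.1 k ((div_iff A a p hp.1 k).2 (Or.inr hk))) with h1 | h1
    · exact absurd rfl h1
    · exact h1
  · intro h q hq k hk
    rw [div_iff A _ q hq] at hk ⊢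
    rcases hk with h1 | h1
    · exact Or.inl h1
    · exact Or.inr (h k h1)

/-- Full transitivity of `RR A`, including the zero element. -/
theorem fully (A : Subring (S p)) (hA : ∀ f ∈ A, PowerSeries.derivative ℤ_[p] f ∈ A) :
    FullyTransitive (RR A) := by
  intro a b hab
  by_cases ha : a = 0
  · refine ⟨0, ?_⟩
    have : b = 0 := eq_zero_of_all A b fun k => (charLE_iff A a b).1 hab k (by
      rw [ha]; exact dvd_zero _)
    rw [this]; rfl
  · exact RR_fully A hA a b ha hab

theorem prod_left (A : Subring (S p)) (x y : RR A × RR A) (h : CharLE x y)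
    (hx : CharLE x.1 x.2) : CharLE x.1 y.1 ∧ CharLE x.1 y.2 := by
  have key : ∀ q : ℕ, q.Prime → ∀ k : ℕ, (∃ z : RR A, q ^ k • z = x.1) →
      ∃ z : RR A × RR A, q ^ k • z = y := by
    rintro q hq k ⟨z1, hz1⟩
    obtain ⟨z2, hz2⟩ := hx q hq k ⟨z1, hz1⟩
    exact h q hq k ⟨(z1, z2), Prod.ext hz1 hz2⟩
  constructor
  · intro q hq k hk
    obtain ⟨z, hz⟩ := key q hq k hk
    exact ⟨z.1, congrArg Prod.fst hz⟩
  · intro q hq k hk
    obtain ⟨z, hz⟩ := key q hq k hk
    exact ⟨z.2, congrArg Prod.snd hz⟩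

theorem prod_right (A : Subring (S p)) (x y : RR A × RR A) (h : CharLE x y)
    (hx : CharLE x.2 x.1) : CharLE x.2 y.1 ∧ CharLE x.2 y.2 := by
  have key : ∀ q : ℕ, q.Prime → ∀ k : ℕ, (∃ z : RR A, q ^ k • z = x.2) →
      ∃ z : RR A × RR A, q ^ k • z = y := by
    rintro q hq k ⟨z2, hz2⟩
    obtain ⟨z1, hz1⟩ := hx q hq k ⟨z2, hz2⟩
    exact h q hq k ⟨(z1, z2), Prod.ext hz1 hz2⟩
  constructor
  · intro q hq k hk
    obtain ⟨z, hz⟩ := key q hq k hk
    exact ⟨z.1, congrArg Prod.fst hz⟩
  · intro q hq k hk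
    obtain ⟨z, hz⟩ := key q hq k hk
    exact ⟨z.2, congrArg Prod.snd hz⟩

/-- Characteristics of two elements of `RR A` are comparable. -/
theorem comparable (A : Subring (S p)) (a b : RR A) : CharLE a b ∨ CharLE b a := by
  by_cases h : CharLE a b
  · exact Or.inl h
  · right
    rw [charLE_iff] at h ⊢
    push Not at h
    obtain ⟨k, hk, hk'⟩ := h
    intro l hl
    have hlk : l ≤ k := by
      by_contra hlt
      exact hk' ((pow_dvd_pow _ (by omega)).trans hl)
    exact (pow_dvd_pow _ hlk).trans hk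

/-- The square of `RR A` is fully transitive. -/
theorem square (A : Subring (S p)) (hA : ∀ f ∈ A, PowerSeries.derivative ℤ_[p] f ∈ A) :
    FullyTransitive (RR A × RR A) := by
  intro x y hxy
  rcases comparable A x.1 x.2 with hx | hx
  · obtain ⟨h1, h2⟩ := prod_left A x y hxy hx
    obtain ⟨f1, hf1⟩ := fully A hA _ _ h1
    obtain ⟨f2, hf2⟩ := fully A hA _ _ h2
    exact ⟨(f1.prod f2).comp (AddMonoidHom.fst _ _), Prod.ext hf1 hf2⟩
  · obtain ⟨h1, h2⟩ := prod_right A x y hxy hx
    obtain ⟨f1, hf1⟩ := fully A hA _ _ h1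
    obtain ⟨f2, hf2⟩ := fully A hA _ _ h2
    exact ⟨(f1.prod f2).comp (AddMonoidHom.snd _ _), Prod.ext hf1 hf2⟩

/-- **Main theorem.** For every prime `p` there is a torsion-free abelian group `G`, homogeneous
and uniquely divisible by every prime other than `p`, such that `G ⊕ G` is Krylov transitive
(even fully transitive) while `G` is not transitive. -/
theorem result : ∀ p : ℕ, p.Prime → ∃ (G : Type) (_ : AddCommGroup G),
    TorsionFree G ∧ Homogeneous G ∧
    (∀ q : ℕ, q.Prime → q ≠ p → ∀ x : G, ∃ z : G, q • z = x) ∧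
    FullyTransitive (G × G) ∧ KrylovTransitive (G × G) ∧ ¬ Transitive G := by
  intro p hpp
  haveI : Fact p.Prime := ⟨hpp⟩
  obtain ⟨A, hXA, hdA, hA⟩ := exists_A p
  have hsq := square A hdA
  refine ⟨RR A, inferInstance, RR_torsionfree A, fun a b ha _ => RR_homogeneous A a b ha, ?_,
    hsq, fun x y h _ => hsq x y h, ?_⟩
  · intro q hq hne x
    obtain ⟨z, hz⟩ := (div_iff A x q hq 1).2 (Or.inl hne)
    exact ⟨z, by rw [← hz, pow_one]⟩
  · intro h
    have key : ∀ k : ℕ, ((p : S p) ^ k ∣ (((1 : RR A)) : S p)) ↔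
        ((p : S p) ^ k ∣ ((Xr A hXA : RR A) : S p)) := by
      intro k
      have h3 : ((1 : RR A) : S p) = 1 := rfl
      have h4 : ((Xr A hXA : RR A) : S p) = PowerSeries.X := rfl
      rw [p_pow_dvd_iff, p_pow_dvd_iff, h3, h4]
      constructor
      · intro h1 i
        have h2 := h1 0
        rw [PowerSeries.coeff_one, if_pos rfl] at h2
        exact h2.trans (one_dvd _)
      · intro h1 i
        have h2 := h1 1
        rw [PowerSeries.coeff_X, if_pos rfl] at h2
        exact h2.trans (one_dvd _)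
    obtain ⟨φ, hφ⟩ := h 1 (Xr A hXA)
      ((charLE_iff A _ _).2 fun k hk => (key k).1 hk) ((charLE_iff A _ _).2 fun k hk => (key k).2 hk)
    exact not_transitive A hXA hA φ hφ

end Pool.Agent.Results.MP_b84a00_al.SquareNotTransitive
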